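import Pool.Agent.V5helper2.NR.Stm

/-!
# Project NR, job DTM: the deterministic theorem
-/

set_option autoImplicit false
open Finset Filter Topology MeasureTheory AddCircle
open scoped ComplexConjugate

namespace Pool.Agent.V5helper91.NR

open Pool.Agent.Helper498.NCR Pool.Agent.V5helper2.CF Pool.Agent.V5helper2.NR

lemma corr_zero {a : ℕ → ℂ} {M : ℕ → ℕ} {γ : ℕ → ℂ} (h : Corr a M γ) : conj (γ 0) = γ 0 := by
  have h0 := h 0
  have h1 : Tendsto (fun i => conj (((M i : ℕ) : ℂ)⁻¹ * ∑ j ∈ range (M i), a (j + 0) * conj (a j)))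
      atTop (𝓝 (conj (γ 0))) := (Complex.continuous_conj.tendsto _).comp h0
  refine tendsto_nhds_unique h1 (h0.congr fun i => ?_)
  rw [map_mul, map_inv₀, Complex.conj_natCast, map_sum]
  congr 1
  refine Finset.sum_congr rfl fun j _ => ?_
  rw [map_mul, Complex.conj_conj, add_zero, mul_comm]

lemma corr_shift_aux {b : ℕ → ℂ} (hb : ∀ n, ‖b n‖ ≤ 1) {M : ℕ → ℕ} {β : ℕ → ℂ}
    (hM : Tendsto M atTop atTop) (h : Corr b M β) (q s : ℕ) :
    Tendsto (fun i => ((M i : ℕ) : ℂ)⁻¹ * ∑ k ∈ range (M i), b (k + (q + s)) * conj (b (k + q)))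
      atTop (𝓝 (β s)) := by
  have hF : ∀ m, ‖b (m + s) * conj (b m)‖ ≤ 1 := fun m => by
    rw [norm_mul, RCLike.norm_conj]
    exact mul_le_one₀ (hb _) (norm_nonneg _) (hb _)
  have h1 : Tendsto (fun i => ((M i : ℕ) : ℂ)⁻¹ * (∑ m ∈ range (M i), b (m + s) * conj (b m) -
      ∑ m ∈ range (M i), b (m + q + s) * conj (b (m + q)))) atTop (𝓝 0) := by
    rw [tendsto_zero_iff_norm_tendsto_zero]
    have h2 : Tendsto (fun i => ((M i : ℕ) : ℝ)⁻¹ * (2 * q * 1)) atTop (𝓝 (0 * (2 * q * 1))) :=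
      ((tendsto_inv_atTop_zero.comp (tendsto_natCast_atTop_atTop.comp hM))).mul_const _
    rw [zero_mul] at h2
    refine squeeze_zero (fun i => norm_nonneg _) (fun i => ?_) h2
    rw [norm_mul, norm_inv, Complex.norm_natCast]
    exact mul_le_mul_of_nonneg_left (shift_one (fun m => b (m + s) * conj (b m)) 1 hF (M i) q)
      (by positivity)
  have h3 := (h s).sub h1
  rw [sub_zero] at h3
  refine h3.congr fun i => ?_
  rw [← mul_sub, sub_sub_cancel]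
  congr 1
  refine Finset.sum_congr rfl fun k _ => ?_
  rw [add_assoc]

lemma corr_shift {b : ℕ → ℂ} (hb : ∀ n, ‖b n‖ ≤ 1) {M : ℕ → ℕ} {β : ℕ → ℂ}
    (hM : Tendsto M atTop atTop) (h : Corr b M β) (p q : ℕ) :
    Tendsto (fun i => ((M i : ℕ) : ℂ)⁻¹ * ∑ k ∈ range (M i), b (k + p) * conj (b (k + q)))
      atTop (𝓝 (Gam β p q)) := by
  unfold Gam
  split_ifs with hpq
  · have h1 := corr_shift_aux hb hM h q (p - q)
    rwa [Nat.add_sub_cancel' hpq] at h1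
  · have h1 := corr_shift_aux hb hM h p (q - p)
    rw [Nat.add_sub_cancel' (by omega : p ≤ q)] at h1
    have h2 := (Complex.continuous_conj.tendsto _).comp h1
    refine h2.congr fun i => ?_
    show conj (((M i : ℕ) : ℂ)⁻¹ * ∑ k ∈ range (M i), b (k + q) * conj (b (k + p))) = _
    rw [map_mul, map_inv₀, Complex.conj_natCast, map_sum]
    congr 1
    refine Finset.sum_congr rfl fun j _ => ?_
    rw [map_mul, Complex.conj_conj, mul_comm]

lemma corr_three {b : ℕ → ℂ} (hb : ∀ n, ‖b n‖ ≤ 1) {N : ℕ → ℕ} {β : ℕ → ℂ}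
    (hN : Tendsto N atTop atTop) (h : Corr b (fun i => 3 * N i) β) (p q : ℕ) :
    Tendsto (fun i => ((N i : ℕ) : ℂ)⁻¹ * ∑ k ∈ range (3 * N i), b (k + p) * conj (b (k + q)))
      atTop (𝓝 (3 * Gam β p q)) := by
  have hM : Tendsto (fun i => 3 * N i) atTop atTop :=
    tendsto_atTop_mono (fun i => by show N i ≤ 3 * N i; omega) hN
  refine ((corr_shift hb hM h p q).const_mul 3).congr fun i => ?_
  push_cast
  rw [mul_inv, ← mul_assoc, ← mul_assoc, mul_inv_cancel₀ (by norm_num : (3 : ℂ) ≠ 0), one_mul]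

lemma gam_refl {c : ℕ → ℂ} {M : ℕ → ℕ} {δ : ℕ → ℂ} (h : Corr c M δ) (J j j' : ℕ) (hj : j < J)
    (hj' : j' < J) : Gam δ (2 * J - j) (2 * J - j') = conj (Gam δ j j') := by
  unfold Gam
  rcases lt_trichotomy j j' with h1 | h1 | h1
  · rw [if_pos (by omega), if_neg (by omega), Complex.conj_conj]
    congr 1
    omega
  · subst h1
    rw [if_pos le_rfl, if_pos le_rfl, Nat.sub_self, Nat.sub_self, corr_zero h]
  · rw [if_neg (by omega), if_pos (by omega)]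
    congr 2
    omega

theorem t_DTM (h1 : Pool.Agent.V5helper2.NR.S_RHO) (h2 : Pool.Agent.V5helper2.NR.S_ATM)
    (h3 : Pool.Agent.V5helper2.NR.S_PMS) (h4 : Pool.Agent.V5helper2.NR.S_DET) :
    Pool.Agent.V5helper2.NR.S_DTM := by
  intro a v c ha hv hc γ δ N hN hγ hδ habs
  have hM : Tendsto (fun i => 3 * N i) atTop atTop :=
    tendsto_atTop_mono (fun i => by show N i ≤ 3 * N i; omega) hN
  obtain ⟨ρ, hρf, hρ⟩ := h1 a ha γ _ hM hγ
  obtain ⟨σ, hσf, hσ⟩ := h1 c hc δ _ hM hδ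
  have hpt : ∀ t : Ci, ρ {t} = 0 ∨ σ {t} = 0 := by
    intro t
    rcases habs (fourier (-1) t) (fourier_pt_norm _ t) with h | h
    · exact Or.inl (h2 a ha γ _ hM hγ ρ hρf hρ t h)
    · exact Or.inr (h2 c hc δ _ hM hδ σ hσf hσ t h)
  have hlim := h3 ρ σ hρf hσf γ δ hρ hσ hpt
  rw [tendsto_zero_iff_norm_tendsto_zero, Metric.tendsto_atTop]
  intro ε hε
  -- the choice of `J`
  obtain ⟨J, hJ1, hJ⟩ : ∃ J : ℕ, 1 ≤ J ∧ ‖((J : ℂ) ^ 2)⁻¹ * ∑ h ∈ range J, ∑ h' ∈ range J,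
      Gam γ h h' * conj (Gam δ h h')‖ < ε ^ 2 / 36 := by
    have h5 := (tendsto_zero_iff_norm_tendsto_zero.1 hlim).eventually_lt_const
      (by positivity : (0 : ℝ) < ε ^ 2 / 36)
    obtain ⟨J, hJ, hJ1⟩ := (h5.and (eventually_ge_atTop 1)).exists
    exact ⟨J, hJ1, hJ⟩
  -- the limit of the right side
  have hR : Tendsto (fun i => 2 * (2 * (J : ℝ) / (N i : ℝ)) ^ 2 +
      2 * ‖((J : ℂ) ^ 2)⁻¹ * ∑ j ∈ range J, ∑ j' ∈ range J,
        (((N i : ℕ) : ℂ)⁻¹ * ∑ k ∈ range (3 * N i), a (k + j) * conj (a (k + j'))) *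
        (((N i : ℕ) : ℂ)⁻¹ * ∑ l ∈ range (3 * N i), c (l + (2 * J - j)) * conj (c (l + (2 * J - j'))))‖)
      atTop (𝓝 (2 * (0 : ℝ) ^ 2 + 2 * ‖((J : ℂ) ^ 2)⁻¹ * ∑ j ∈ range J, ∑ j' ∈ range J,
        (3 * Gam γ j j') * (3 * Gam δ (2 * J - j) (2 * J - j'))‖)) := by
    refine Tendsto.add ?_ ?_
    · refine ((Tendsto.div_atTop tendsto_const_nhds (tendsto_natCast_atTop_atTop.comp hN)).pow 2).const_mul 2
    · refine (Tendsto.norm (Tendsto.const_mul _ ?_)).const_mul 2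
      refine tendsto_finsetSum _ fun j _ => tendsto_finsetSum _ fun j' _ => ?_
      exact (corr_three ha hN hγ j j').mul (corr_three hc hN hδ (2 * J - j) (2 * J - j'))
  have hval : 2 * (0 : ℝ) ^ 2 + 2 * ‖((J : ℂ) ^ 2)⁻¹ * ∑ j ∈ range J, ∑ j' ∈ range J,
        (3 * Gam γ j j') * (3 * Gam δ (2 * J - j) (2 * J - j'))‖ < ε ^ 2 := by
    have e1 : ∑ j ∈ range J, ∑ j' ∈ range J, (3 * Gam γ j j') * (3 * Gam δ (2 * J - j) (2 * J - j')) =
        9 * ∑ j ∈ range J, ∑ j' ∈ range J, Gam γ j j' * conj (Gam δ j j') := by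
      rw [Finset.mul_sum]
      refine Finset.sum_congr rfl fun j hj => ?_
      rw [Finset.mul_sum]
      refine Finset.sum_congr rfl fun j' hj' => ?_
      rw [gam_refl hδ J j j' (mem_range.1 hj) (mem_range.1 hj')]
      ring
    rw [e1, mul_left_comm, norm_mul]
    have e2 : ‖(9 : ℂ)‖ = 9 := by simp
    rw [e2]
    have e3 : (0 : ℝ) < ε ^ 2 := by positivity
    nlinarith [hJ]
  obtain ⟨i₀, hi₀⟩ := eventually_atTop.1 (hR.eventually_lt_const hval)
  obtain ⟨i₁, hi₁⟩ := eventually_atTop.1 (hN.eventually_ge_atTop 1)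
  refine ⟨max i₀ i₁, fun i hi => ?_⟩
  have h6 := h4 a v c ha hv hc J (N i) hJ1 (hi₁ i ((le_max_right _ _).trans hi))
  have h7 := hi₀ i ((le_max_left _ _).trans hi)
  have h8 : ‖bavg (N i) (fun m n => a m * v (m + n) * c (m + 2 * n))‖ ^ 2 < ε ^ 2 :=
    lt_of_le_of_lt h6 h7
  rw [Real.dist_eq, sub_zero, abs_of_nonneg (norm_nonneg _)]
  exact lt_of_pow_lt_pow_left₀ 2 hε.le h8

end Pool.Agent.V5helper91.NR
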